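import Pool.Agent.H1.GP.Simple

/-!
# The simple groups `SL(2, q) = PSL(2, q)`, `q` even, have `G`-permutable subgroups of order two

A subgroup `A` of a finite group `G` is `G`-permutable if each subgroup `B` of `G` has a conjugate
`B ^ x` with `A B ^ x = B ^ x A`. Q1 asks for the finite nonabelian simple groups with a
`G`-permutable subgroup `A`, `1 ≠ A ≠ G`. We prove that the groups `SL(2, q)`, `q = 2 ^ f ≥ 4`, are
among them; in fact each subgroup of order two is `G`-permutable there.

Proof. The involutions are conjugate, so it is enough that each subgroup `B` contains an involution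
or is normalized by one. Let `B ≠ 1` have odd order. Commuting is transitive on the nontrivial
elements of `SL(2, q)`, and an element of `B` which maps `b ∈ B` to an element commuting with `b`
centralizes `b`; a counting argument shows that `B` is commutative. For `1 ≠ b ∈ B` there is an
involution which maps each element commuting with `b` to its inverse; so it normalizes `B`.
-/

namespace Pool.Agent.Results.MP_8f3271_al.SL2Even

open GPerm

theorem result (F : Type*) [Field F] [Finite F] [CharP F 2] (hF : 4 ≤ Nat.card F) :
    IsSimpleGroup (Matrix.SpecialLinearGroup (Fin 2) F) ∧
    ∃ A : Subgroup (Matrix.SpecialLinearGroup (Fin 2) F),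
      Nat.card A = 2 ∧ A ≠ ⊤ ∧ IsGPermutable A :=
  ⟨simple F hF, main F⟩

end Pool.Agent.Results.MP_8f3271_al.SL2Even
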